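import Pool.Agent.Q230.CY.TwoP

/-!
# Cycle stable roommates with bounded lists: NP-complete exactly from length three on

Both CS(L) and CS₃(L) are NP-complete for every `L ≥ 3` and in P for every `L ≤ 2`.
-/

namespace Pool.Agent.Results.MP_68674a_lc.ListLengthThree

open Pool.Agent.NPC Pool.Agent.Q230.CY

/-- CS(L) and CS₃(L) are NP-complete for `L ≥ 3` and polynomial-time solvable for `L ≤ 2`. -/
theorem result :
    (∀ L, 3 ≤ L → (InNPP (CS L) ∧ NPHardP (CS L)) ∧ (InNPP (CS3 L) ∧ NPHardP (CS3 L))) ∧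
    (∀ L, L ≤ 2 → InPP (CS L) ∧ InPP (CS3 L)) :=
  ⟨fun L hL => ⟨⟨cs_mem L, cs_hard hL⟩, ⟨cs3_mem L, cs3_hard hL⟩⟩,
    fun _ hL => ⟨cs_inP hL, cs3_inP hL⟩⟩

end Pool.Agent.Results.MP_68674a_lc.ListLengthThree
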